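import Mathlib
import Pool.Agent.TH888.G.PilC

/-!
Pillai's equation `a x ^ n - b y ^ m = c` with fixed `a`, `b`, `c`: almost all integers, also in short
intervals, are neither `x` nor `y` in a solution. The exponents are free and no coprimality is assumed.
-/

set_option autoImplicit false

namespace Pool.Agent.Results.MP_40586e_nt.AlmostAllBases

/-- the natural numbers `t` such that `t` or `-t` is the base `y`, or the base `x`, of a solution of
`a x ^ n - b y ^ m = c` in nonzero integers `x`, `y`, where the exponent of this base is at least `1`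
and the exponent of the other base is at least `2` -/
def Bases (a b c : ℤ) : Set ℕ :=
  {t | ∃ (x y : ℤ) (n m : ℕ), x ≠ 0 ∧ y ≠ 0 ∧ a * x ^ n - b * y ^ m = c ∧
    ((y.natAbs = t ∧ 1 ≤ m ∧ 2 ≤ n) ∨ (x.natAbs = t ∧ 1 ≤ n ∧ 2 ≤ m))}

/-- For all nonzero integers `a`, `b`, `c` and all `ε > 0`, `0 < δ ≤ 1` there is `L` such that every
interval `(B, B + Y]` with `Y ≥ L` and `B ≤ Y ^ (2 - δ)` contains at most `ε Y` bases. -/
theorem result (a b c : ℤ) (ha : a ≠ 0) (hb : b ≠ 0) (hc : c ≠ 0) (ε δ : ℝ) (hε : 0 < ε)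
    (hδ : 0 < δ) (hδ1 : δ ≤ 1) : ∃ L : ℕ, ∀ Y : ℕ, L ≤ Y → ∀ B : ℕ,
    (B : ℝ) ≤ (Y : ℝ) ^ (2 - δ) →
      ((Bases a b c ∩ Set.Ioc B (B + Y)).ncard : ℝ) ≤ ε * Y := by
  have hε4 : 0 < ε / 4 := by positivity
  obtain ⟨E, hE⟩ : ∃ E : ℤ → ℤ → ℤ → ℕ → ℕ → Set ℕ, E = fun a b c B Y =>
      {t : ℕ | t ∈ Set.Ioc B (B + Y) ∧ ∃ (x : ℤ) (m n : ℕ), x ≠ 0 ∧ 0 < m ∧
        2 ≤ n ∧ a * x ^ n = b * (t : ℤ) ^ m + c} := ⟨_, rfl⟩
  have main : ∀ a b c : ℤ, a ≠ 0 → b ≠ 0 → c ≠ 0 → ∃ L : ℕ, ∀ Y : ℕ, L ≤ Y → ∀ B : ℕ,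
      (B : ℝ) ≤ (Y : ℝ) ^ (2 - δ) → ((E a b c B Y).ncard : ℝ) ≤ ε / 4 * Y := by
    intro a b c ha hb hc
    rw [hE]
    exact Pool.Agent.TH888.G.pil_main a b c ha hb hc (ε / 4) δ hε4 hδ hδ1
  obtain ⟨L₁, h₁⟩ := main a b c ha hb hc
  obtain ⟨L₂, h₂⟩ := main a (-b) c ha (neg_ne_zero.mpr hb) hc
  obtain ⟨L₃, h₃⟩ := main b a (-c) hb ha (neg_ne_zero.mpr hc)
  obtain ⟨L₄, h₄⟩ := main b (-a) (-c) hb (neg_ne_zero.mpr ha) (neg_ne_zero.mpr hc)
  refine ⟨L₁ + L₂ + L₃ + L₄, fun Y hY B hB => ?_⟩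
  have k₁ := h₁ Y (by omega) B hB
  have k₂ := h₂ Y (by omega) B hB
  have k₃ := h₃ Y (by omega) B hB
  have k₄ := h₄ Y (by omega) B hB
  have hfin : ∀ a b c : ℤ, (E a b c B Y).Finite := by
    intro a b c
    rw [hE]
    exact (Set.finite_Ioc B (B + Y)).subset fun t ht => ht.1
  -- a power of `± t`
  have hpow : ∀ (y : ℤ) (m : ℕ), y ^ m = ((y.natAbs : ℕ) : ℤ) ^ m ∨
      y ^ m = -(((y.natAbs : ℕ) : ℤ) ^ m) := by
    intro y m
    rcases Int.natAbs_eq y with h | h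
    · left; rw [← h]
    · rcases Nat.even_or_odd m with hm | hm
      · left
        conv_lhs => rw [h]
        rw [hm.neg_pow]
      · right
        conv_lhs => rw [h]
        rw [hm.neg_pow]
  have hsub : Bases a b c ∩ Set.Ioc B (B + Y) ⊆
      (E a b c B Y ∪ E a (-b) c B Y) ∪ (E b a (-c) B Y ∪ E b (-a) (-c) B Y) := by
    rintro t ⟨⟨x, y, n, m, hx, hy, heq, ⟨ht, hm, hn⟩ | ⟨ht, hn, hm⟩⟩, hB'⟩
    · left
      rcases hpow y m with h | h
      · left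
        rw [hE]
        refine ⟨hB', x, m, n, hx, hm, hn, ?_⟩
        rw [ht] at h
        rw [← heq, h]; ring
      · right
        rw [hE]
        refine ⟨hB', x, m, n, hx, hm, hn, ?_⟩
        rw [ht] at h
        rw [← heq, h]; ring
    · right
      rcases hpow x n with h | h
      · left
        rw [hE]
        refine ⟨hB', y, n, m, hy, hn, hm, ?_⟩
        rw [ht] at h
        rw [← heq, h]; ring
      · right
        rw [hE]
        refine ⟨hB', y, n, m, hy, hn, hm, ?_⟩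
        rw [ht] at h
        rw [← heq, h]; ring
  have hf1 := (hfin a b c).union (hfin a (-b) c)
  have hf2 := (hfin b a (-c)).union (hfin b (-a) (-c))
  have u0 := (Set.ncard_le_ncard hsub (hf1.union hf2)).trans (Set.ncard_union_le _ _)
  have u1 := Set.ncard_union_le (E a b c B Y) (E a (-b) c B Y)
  have u2 := Set.ncard_union_le (E b a (-c) B Y) (E b (-a) (-c) B Y)
  have u3 : ((Bases a b c ∩ Set.Ioc B (B + Y)).ncard : ℝ) ≤
      ((E a b c B Y).ncard + (E a (-b) c B Y).ncard) +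
        ((E b a (-c) B Y).ncard + (E b (-a) (-c) B Y).ncard) := by
    exact_mod_cast u0.trans (Nat.add_le_add u1 u2)
  linarith

end Pool.Agent.Results.MP_40586e_nt.AlmostAllBases
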